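import Pool.Agent.W275.CP.Stm2

set_option autoImplicit false

namespace Pool.Agent.W395.CP.Root

open Pool.Agent.W275.CP

lemma solve (p : ℕ) (hp : p.Prime) (a c : ℕ) (ha : ¬ p ∣ a) :
    ∃ s : ℕ, p ∣ c + a * s := by
  haveI : Fact p.Prime := ⟨hp⟩
  have ha' : (a : ZMod p) ≠ 0 := by
    intro h
    exact ha ((ZMod.natCast_eq_zero_iff a p).1 h)
  refine ⟨(-(c : ZMod p) / a).val, ?_⟩
  rw [← ZMod.natCast_eq_zero_iff]
  push_cast
  rw [ZMod.natCast_val, ZMod.cast_id', id]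
  field_simp
  ring

theorem main : S_root := by
  intro j h B hj hh
  obtain ⟨Q, hQ⟩ : ∃ Q : ℕ, Q = (B + 7).factorial := ⟨_, rfl⟩
  have hQ7 : 7 ≤ Q := by
    rw [hQ]
    exact le_trans (by omega) (Nat.self_le_factorial (B + 7))
  have hbig : 3 ≤ j * h ^ 3 * Q ^ 4 := by
    have h1 : 1 ≤ j * h ^ 3 := Nat.mul_pos hj (pow_pos hh 3)
    have h2 : 7 ^ 4 ≤ Q ^ 4 := Nat.pow_le_pow_left hQ7 4
    calc 3 ≤ 1 * 7 ^ 4 := by norm_num
      _ ≤ j * h ^ 3 * Q ^ 4 := Nat.mul_le_mul h1 h2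
  obtain ⟨A, hA⟩ : ∃ A : ℕ, A + 1 = j * h ^ 3 * Q ^ 4 := ⟨j * h ^ 3 * Q ^ 4 - 1, by omega⟩
  have hA2 : A ≠ 1 := by omega
  obtain ⟨p, hp, hpA⟩ := Nat.exists_prime_and_dvd hA2
  have hpn : ¬ p ∣ A + 1 := by
    intro h1
    have h2 : p ∣ 1 := (Nat.dvd_add_right hpA).1 h1
    exact hp.one_lt.ne' (Nat.dvd_one.1 h2)
  have hpQ : ¬ p ∣ Q := fun h1 => hpn (by
    rw [hA]; exact Dvd.dvd.mul_left (dvd_pow h1 (by norm_num)) _)
  have hpj : ¬ p ∣ j := fun h1 => hpn (by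
    rw [hA]; exact Dvd.dvd.mul_right (Dvd.dvd.mul_right h1 _) _)
  have hph : ¬ p ∣ h := fun h1 => hpn (by
    rw [hA]; exact Dvd.dvd.mul_right (Dvd.dvd.mul_left (dvd_pow h1 (by norm_num)) _) _)
  have hpB : B + 7 < p := by
    by_contra hcon
    exact hpQ (by rw [hQ]; exact (hp.dvd_factorial).2 (by omega))
  have hp2 : ¬ p ∣ 4 := fun h1 => by
    have := Nat.le_of_dvd (by norm_num) h1
    omega
  obtain ⟨c, hc⟩ := hpA
  have ha : ¬ p ∣ 4 * j * (h * Q) ^ 3 := by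
    intro h1
    rcases (hp.dvd_mul).1 h1 with h2 | h2
    · rcases (hp.dvd_mul).1 h2 with h3 | h3
      · exact hp2 h3
      · exact hpj h3
    · rcases (hp.dvd_mul).1 (hp.dvd_of_dvd_pow h2) with h3 | h3
      · exact hph h3
      · exact hpQ h3
  obtain ⟨s, t, hs⟩ := solve p hp (4 * j * (h * Q) ^ 3) (h * c) ha
  refine ⟨p, h * Q + p * s, hp, by omega, ?_⟩
  have hsZ : (h : ℤ) * c + 4 * j * (h * Q) ^ 3 * s = p * t := by exact_mod_cast hs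
  have hcZ : (A : ℤ) = p * c := by exact_mod_cast hc
  have hAZ : (A : ℤ) + 1 = j * h ^ 3 * Q ^ 4 := by exact_mod_cast hA
  refine ⟨t + 6 * j * (h * Q) ^ 2 * s ^ 2 + 4 * j * (h * Q) * p * s ^ 3 + j * p ^ 2 * s ^ 4, ?_⟩
  push_cast
  linear_combination (p : ℤ) * hsZ + (h : ℤ) * hcZ - (h : ℤ) * hAZ

end Pool.Agent.W395.CP.Root
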