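import Pool.Agent.W275.CP.Stm

set_option autoImplicit false

namespace Pool.Agent.W395.CP.B

open Finset Pool.Agent.W275.CP

lemma Q0_pos (K : ℕ) : 0 < Q0 K := by
  unfold Q0
  exact Finset.prod_pos (fun p hp => (Finset.mem_filter.1 hp).2.pos)

lemma x0_le (j K : ℕ) : x0 j K ≤ Q0 K := by
  unfold x0 Q0
  apply Finset.prod_le_prod_of_subset_of_one_le'
  · intro p hp
    rw [Finset.mem_filter] at hp ⊢
    exact ⟨hp.1, hp.2.1⟩
  · intro p hp _
    exact (Finset.mem_filter.1 hp).2.one_le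

/-- double counting: if each `q` has few bad `y`, some `y` has few bad `q` -/
lemma pick (T : Finset ℕ) (I : Finset ℕ) (hI : I.Nonempty) (P : ℕ → ℕ → Prop)
    [∀ y q, Decidable (P y q)]
    (h : ∀ q ∈ T, ((I.filter fun y => ¬ P y q).card : ℝ) ≤ 1 / 2 * I.card) :
    ∃ y ∈ I, (T.card : ℝ) / 2 ≤ ((T.filter fun q => P y q).card : ℝ) := by
  by_contra hcon
  push Not at hcon
  have h1 : (∑ y ∈ I, ((T.filter fun q => ¬ P y q).card : ℝ)) ≤ T.card * (1 / 2 * I.card) := by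
    have : (∑ y ∈ I, ((T.filter fun q => ¬ P y q).card : ℝ)) =
        ∑ q ∈ T, ((I.filter fun y => ¬ P y q).card : ℝ) := by
      simp only [Finset.card_filter, Nat.cast_sum]
      rw [Finset.sum_comm]
    rw [this]
    calc (∑ q ∈ T, ((I.filter fun y => ¬ P y q).card : ℝ)) ≤ ∑ q ∈ T, (1 / 2 * I.card : ℝ) :=
          Finset.sum_le_sum h
      _ = T.card * (1 / 2 * I.card) := by rw [Finset.sum_const, nsmul_eq_mul]
  have h2 : (I.card : ℝ) * ((T.card : ℝ) / 2) < ∑ y ∈ I, ((T.filter fun q => ¬ P y q).card : ℝ) := by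
    have h3 : ∀ y ∈ I, (T.card : ℝ) / 2 < ((T.filter fun q => ¬ P y q).card : ℝ) := by
      intro y hy
      have h4 := hcon y hy
      have h5 : (T.filter fun q => P y q).card + (T.filter fun q => ¬ P y q).card = T.card :=
        Finset.card_filter_add_card_filter_not _
      have h6 : ((T.filter fun q => P y q).card : ℝ) + ((T.filter fun q => ¬ P y q).card : ℝ) =
          T.card := by exact_mod_cast h5
      linarith
    calc (I.card : ℝ) * ((T.card : ℝ) / 2) = ∑ y ∈ I, ((T.card : ℝ) / 2) := by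
          rw [Finset.sum_const, nsmul_eq_mul]
      _ < _ := Finset.sum_lt_sum_of_nonempty hI h3
  nlinarith

lemma J_bounds {j : ℕ} (hj : j ∈ J) : 1 ≤ j ∧ j ≤ 7 := by
  unfold J at hj
  simp only [Finset.mem_insert, Finset.mem_singleton] at hj
  omega

theorem main : S_cong → S_mod → S_sieve → S_good → S_B := by
  intro hcong hmod hsieve hgood j hj ε hε
  obtain ⟨hj1, hj7⟩ := J_bounds hj
  obtain ⟨ε', hε', hε'1, hε'ε⟩ : ∃ ε' : ℝ, 0 < ε' ∧ ε' ≤ 1 ∧ ε' ≤ ε :=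
    ⟨min ε 1, lt_min hε one_pos, min_le_right _ _, min_le_left _ _⟩
  obtain ⟨K₁, hK₁⟩ := hsieve j hj (1 / 2) (by norm_num)
  obtain ⟨K₂, hK₂⟩ := hgood (1 / 16) (by norm_num)
  obtain ⟨K, hKa, hKb, hKc⟩ : ∃ K : ℕ, K₁ ≤ K ∧ K₂ ≤ K ∧ 2 ≤ K :=
    ⟨max K₁ (max K₂ 2), le_max_left _ _, le_trans (le_max_left _ _) (le_max_right _ _),
      le_trans (le_max_right _ _) (le_max_right _ _)⟩
  obtain ⟨δ, hδdef⟩ : ∃ δ : ℝ, δ = ε' / 160 := ⟨_, rfl⟩
  have hδ : 0 < δ := by rw [hδdef]; positivity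
  have hδ1 : δ ≤ 1 := by rw [hδdef]; linarith
  obtain ⟨Y₀, hY₀⟩ := hK₁ K hKa δ hδ
  obtain ⟨y₀, hy₀, hT⟩ := hK₂ K hKb 1 one_pos
  have hMpos : 0 < Q0 K := Q0_pos K
  obtain ⟨M, hM⟩ : ∃ M : ℝ, M = (Q0 K : ℝ) := ⟨_, rfl⟩
  have hM1 : 1 ≤ M := by rw [hM]; exact_mod_cast hMpos
  have hjR : (1 : ℝ) ≤ (j : ℝ) := by exact_mod_cast hj1
  have hj0 : (0 : ℝ) < (j : ℝ) := by linarith
  have hM0 : 0 < M := by linarith
  obtain ⟨A, hA⟩ : ∃ A : ℝ, A = M * Y₀ + 3 * M / δ + M / δ + 1 := ⟨_, rfl⟩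
  have hA0 : 0 < A := by rw [hA]; positivity
  refine ⟨(4 * j * y₀) ^ 4, 1 / (16 * M * j), j * A ^ 4, by positivity, ?_⟩
  intro X H hX hH hHX
  have hH0 : 0 < H := lt_of_lt_of_le (by positivity) hH
  have hX0 : 0 < X := lt_of_lt_of_le (by positivity) hX
  have hc1 : 1 / (16 * M * j) ≤ 1 := by
    rw [div_le_one (by positivity)]
    have h1 : 1 * 1 ≤ M * (j : ℝ) := mul_le_mul hM1 hjR (by norm_num) hM0.le
    have h2 : 16 * M * j = 16 * (M * j) := by ring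
    rw [h2]; linarith
  have hHX1 : H ≤ X := le_trans hHX (mul_le_of_le_one_left hX0.le hc1)
  -- the fourth roots
  obtain ⟨h, hh0, hh4, hhdef⟩ : ∃ h : ℝ, 0 ≤ h ∧ h ^ 4 = H ∧ h = H ^ (1 / 4 : ℝ) := by
    refine ⟨H ^ (1 / 4 : ℝ), by positivity, ?_, rfl⟩
    rw [← Real.rpow_natCast, ← Real.rpow_mul hH0.le]
    norm_num
  obtain ⟨R, hR0, hR4⟩ : ∃ R : ℝ, 0 ≤ R ∧ R ^ 4 = (X + H) / j := by
    have hq : 0 < (X + H) / j := by positivity
    refine ⟨((X + H) / j) ^ (1 / 4 : ℝ), by positivity, ?_⟩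
    rw [← Real.rpow_natCast, ← Real.rpow_mul hq.le]
    norm_num
  have hhy : 4 * j * y₀ ≤ h := by
    apply le_of_pow_le_pow_left₀ (n := 4) (by norm_num) hh0
    rw [hh4]; exact hH
  have hRA : A ≤ R := by
    apply le_of_pow_le_pow_left₀ (n := 4) (by norm_num) hR0
    rw [hR4, le_div_iff₀ hj0]
    have h1 : A ^ 4 * j = j * A ^ 4 := mul_comm _ _
    rw [h1]; linarith
  have hy1 : y₀ ≤ h / (4 * j) := by
    rw [le_div_iff₀ (by positivity)]; linarith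
  obtain ⟨T, hTc, hTq⟩ := hT (h / (4 * j)) hy1
  rw [← hM] at hTc
  -- the size of `q`
  have hq4 : ∀ q ∈ T, 16 * (j : ℝ) ^ 3 * (q : ℝ) ^ 4 ≤ H / j := by
    intro q hq
    obtain ⟨-, -, -, -, h5⟩ := hTq q hq
    have h6 : (q : ℝ) ≤ h / (2 * j) := by
      refine le_trans h5 (le_of_eq ?_)
      field_simp; ring
    have h7 : (q : ℝ) ^ 4 ≤ (h / (2 * j)) ^ 4 := pow_le_pow_left₀ (Nat.cast_nonneg q) h6 4
    calc 16 * (j : ℝ) ^ 3 * (q : ℝ) ^ 4 ≤ 16 * (j : ℝ) ^ 3 * (h / (2 * j)) ^ 4 := by gcongr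
      _ = H / j := by rw [← hh4]; field_simp; ring
  obtain ⟨Y, hYdef⟩ : ∃ Y : ℕ, Y = ⌈R / M⌉₊ := ⟨_, rfl⟩
  have hY1 : R / M ≤ Y := by rw [hYdef]; exact Nat.le_ceil _
  have hY2 : (Y : ℝ) < R / M + 1 := by rw [hYdef]; exact Nat.ceil_lt_add_one (by positivity)
  have hMY : R ≤ M * Y := by
    rw [div_le_iff₀ hM0] at hY1; linarith
  have hMY4 : (X + H) / j ≤ (M * Y) ^ 4 := by
    rw [← hR4]; exact pow_le_pow_left₀ hR0 hMY 4
  have hRMA : M * Y₀ ≤ R := by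
    have : 0 ≤ 3 * M / δ + M / δ + 1 := by positivity
    linarith
  have hR3 : 3 * M / δ ≤ R := by
    have h1 : 0 ≤ M / δ := by positivity
    have h2 : 0 ≤ M * Y₀ := by positivity
    linarith
  have hR1 : M / δ ≤ R := by
    have h1 : 0 ≤ 3 * M / δ := by positivity
    have h2 : 0 ≤ M * Y₀ := by positivity
    linarith
  have hYY₀ : Y₀ ≤ Y := by
    have : (Y₀ : ℝ) ≤ Y := by
      refine le_trans ?_ hY1
      rw [le_div_iff₀ hM0]; linarith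
    exact_mod_cast this
  have hδY : 1 ≤ δ * Y := by
    have h1 : M ≤ δ * R := by
      rw [div_le_iff₀ hδ] at hR1; linarith
    have h2 : M ≤ δ * (M * Y) := le_trans h1 (by gcongr)
    have h3 : M * 1 ≤ M * (δ * Y) := by linarith
    exact le_of_mul_le_mul_left h3 hM0
  have hn1 : 1 ≤ ⌊δ * Y⌋₊ := by
    rw [Nat.one_le_floor_iff]; exact hδY
  have hlt : ∀ q ∈ T, 16 * j ^ 2 * q ^ 4 < (Q0 K * Y) ^ 4 := by
    intro q hq
    have h1 := hq4 q hq
    have h2 : ((16 * j ^ 2 * q ^ 4 : ℕ) : ℝ) < (((Q0 K * Y) ^ 4 : ℕ) : ℝ) := by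
      push_cast
      rw [← hM]
      have h3 : 16 * (j : ℝ) ^ 2 * (q : ℝ) ^ 4 ≤ 16 * (j : ℝ) ^ 3 * (q : ℝ) ^ 4 := by
        have : (j : ℝ) ^ 2 ≤ (j : ℝ) ^ 3 := pow_le_pow_right₀ hjR (by norm_num)
        gcongr
      have h4 : H / j < (X + H) / j := by
        apply div_lt_div_of_pos_right _ hj0
        linarith
      linarith
    exact_mod_cast h2
  -- choose `y`
  classical
  obtain ⟨y, hyI, hyT⟩ := pick T (Ico Y (Y + ⌊δ * Y⌋₊))
    (by rw [Finset.nonempty_Ico]; omega)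
    (fun y q => Squarefree (val j (xx j K y) q))
    (by
      intro q hq
      obtain ⟨h1, h2, h3, -, -⟩ := hTq q hq
      have h4 := hY₀ Y hYY₀ q h1 h2 (by linarith) (hlt q hq)
      have h5 : ((Ico Y (Y + ⌊δ * Y⌋₊)).card : ℝ) = (⌊δ * Y⌋₊ : ℝ) := by
        rw [Nat.card_Ico]; norm_num
      rw [h5]
      exact h4)
  rw [Finset.mem_Ico] at hyI
  obtain ⟨hya, hyb⟩ := hyI
  obtain ⟨x, hx⟩ : ∃ x : ℕ, x = xx j K y := ⟨_, rfl⟩
  have hxge : Q0 K * Y ≤ x := by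
    rw [hx]; unfold xx
    calc Q0 K * Y ≤ Q0 K * y := Nat.mul_le_mul_left _ hya
      _ ≤ x0 j K + Q0 K * y := Nat.le_add_left _ _
  have hxgeR : M * Y ≤ x := by rw [hM]; exact_mod_cast hxge
  have hxle : (x : ℝ) ≤ (1 + 2 * δ) * R := by
    have h1 : (x : ℝ) ≤ M + M * y := by
      rw [hx]; unfold xx
      push_cast
      rw [← hM]
      have : (x0 j K : ℝ) ≤ M := by rw [hM]; exact_mod_cast x0_le j K
      linarith
    have h2 : (y : ℝ) ≤ Y + δ * Y := by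
      have h3 : (y : ℝ) < ((Y + ⌊δ * Y⌋₊ : ℕ) : ℝ) := by exact_mod_cast hyb
      push_cast at h3
      have h4 : (⌊δ * Y⌋₊ : ℝ) ≤ δ * Y := Nat.floor_le (by positivity)
      linarith
    have h5 : M * Y ≤ R + M := by
      have h6 : M * Y ≤ M * (R / M + 1) := by gcongr
      have h7 : M * (R / M + 1) = R + M := by field_simp
      linarith
    have h8 : 3 * M ≤ δ * R := by
      rw [div_le_iff₀ hδ] at hR3; linarith
    have h9 : M * y ≤ M * Y + δ * (M * Y) := by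
      calc M * y ≤ M * (Y + δ * Y) := by gcongr
        _ = M * Y + δ * (M * Y) := by ring
    have h10 : δ * (M * Y) ≤ δ * (R + M) := by gcongr
    have h11 : δ * M ≤ 1 * M := mul_le_mul_of_nonneg_right hδ1 hM0.le
    have h12 : δ * (R + M) = δ * R + δ * M := by ring
    have h13 : (1 + 2 * δ) * R = R + 2 * (δ * R) := by ring
    rw [h13]
    linarith
  have hx4le : (j : ℝ) * (x : ℝ) ^ 4 ≤ (1 + ε' / 2) * (X + H) := by
    have h1 : (x : ℝ) ^ 4 ≤ ((1 + 2 * δ) * R) ^ 4 := pow_le_pow_left₀ (Nat.cast_nonneg x) hxle 4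
    have h2 : ((1 + 2 * δ) * R) ^ 4 = (1 + 2 * δ) ^ 4 * ((X + H) / j) := by
      rw [mul_pow, hR4]
    have h3 : (1 + 2 * δ) ^ 4 ≤ 1 + ε' / 2 := by
      have h4 : (1 + 2 * δ) ^ 4 = 1 + 8 * δ + 24 * δ ^ 2 + 32 * δ ^ 3 + 16 * δ ^ 4 := by ring
      have h5 : δ ^ 2 ≤ δ := pow_le_of_le_one hδ.le hδ1 (by norm_num)
      have h6 : δ ^ 3 ≤ δ := pow_le_of_le_one hδ.le hδ1 (by norm_num)
      have h7 : δ ^ 4 ≤ δ := pow_le_of_le_one hδ.le hδ1 (by norm_num)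
      rw [h4]
      have h8 : 80 * δ = ε' / 2 := by rw [hδdef]; ring
      linarith
    calc (j : ℝ) * (x : ℝ) ^ 4 ≤ (j : ℝ) * ((1 + 2 * δ) ^ 4 * ((X + H) / j)) := by
          rw [← h2]; gcongr
      _ = (1 + 2 * δ) ^ 4 * (X + H) := by field_simp
      _ ≤ (1 + ε' / 2) * (X + H) := by gcongr
  have hx4ge : X + H ≤ (j : ℝ) * (x : ℝ) ^ 4 := by
    have h1 : (M * Y) ^ 4 ≤ (x : ℝ) ^ 4 := pow_le_pow_left₀ (by positivity) hxgeR 4
    have h2 : (X + H) / j ≤ (x : ℝ) ^ 4 := le_trans hMY4 h1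
    rw [div_le_iff₀ hj0] at h2
    linarith
  have hltx : ∀ q ∈ T, 16 * j ^ 2 * q ^ 4 < x ^ 4 := fun q hq =>
    lt_of_lt_of_le (hlt q hq) (Nat.pow_le_pow_left hxge 4)
  have hval : ∀ q ∈ T, (val j x q : ℝ) = (j : ℝ) * (x : ℝ) ^ 4 - 16 * (j : ℝ) ^ 3 * (q : ℝ) ^ 4 := by
    intro q hq
    unfold W275.CP.val
    rw [Nat.cast_mul, Nat.cast_sub (hltx q hq).le]
    push_cast
    ring
  refine ⟨(j : ℝ) * (x : ℝ) ^ 4 - H, by linarith, ?_, 
    (T.filter fun q => Squarefree (val j (xx j K y) q)).image (fun q => val j x q), ?_, ?_⟩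
  · have h1 : (1 + ε') * X ≤ (1 + ε) * X := by gcongr
    have h2 : ε' / 2 * H ≤ ε' / 2 * X := by gcongr
    have h3 : (1 + ε' / 2) * (X + H) = (1 + ε') * X - ε' / 2 * X + H + ε' / 2 * H := by ring
    linarith
  · rw [Finset.card_image_of_injOn]
    · rw [← hhdef]
      calc 1 / (16 * M * j) * h = 1 * (h / (4 * j)) / (2 * M) / 2 := by field_simp; ring
        _ ≤ (T.card : ℝ) / 2 := by gcongr
        _ ≤ _ := hyT
    · intro q hq q' hq' heq
      have hqT : q ∈ T := (Finset.mem_filter.1 hq).1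
      have hqT' : q' ∈ T := (Finset.mem_filter.1 hq').1
      have h1 : (val j x q : ℝ) = (val j x q' : ℝ) := by
        exact_mod_cast heq
      rw [hval q hqT, hval q' hqT'] at h1
      have h2 : (q : ℝ) ^ 4 = (q' : ℝ) ^ 4 := by
        have h3 : 16 * (j : ℝ) ^ 3 * (q : ℝ) ^ 4 = 16 * (j : ℝ) ^ 3 * (q' : ℝ) ^ 4 := by linarith
        exact mul_left_cancel₀ (by positivity) h3
      have h4 : (q : ℝ) = (q' : ℝ) :=
        (pow_left_inj₀ (Nat.cast_nonneg q) (Nat.cast_nonneg q') (by norm_num)).1 h2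
      exact_mod_cast h4
  · intro d hd
    rw [Finset.mem_image] at hd
    obtain ⟨q, hq, rfl⟩ := hd
    rw [Finset.mem_filter] at hq
    obtain ⟨hqT, hsq⟩ := hq
    have h1 := hq4 q hqT
    have h2 : H / j ≤ H := div_le_self hH0.le hjR
    have h3 : 0 ≤ 16 * (j : ℝ) ^ 3 * (q : ℝ) ^ 4 := by positivity
    rw [hval q hqT]
    refine ⟨by linarith, by linarith, ?_, ?_, ?_⟩
    · rw [hx]; exact hsq
    · rw [hx]
      apply hmod j hj K y q hKc
      rw [← hx]; exact hltx q hqT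
    · exact hcong j x q (by omega) (hTq q hqT).1 (hltx q hqT)

end Pool.Agent.W395.CP.B
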